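import Pool.Agent.P8H67.IU.Stm

/-!
# Project IU (helper67), package EXT: a discrete valuation extends to an algebraically closed field

(Adapted from W277/UG/A1.lean.)
-/

set_option autoImplicit false

namespace Pool.Agent.P8H84.IU

universe u

variable {K : Type u} [Field K]

theorem ord_one (ord : K → ℤ) (hm : ∀ x y, x ≠ 0 → y ≠ 0 → ord (x * y) = ord x + ord y) : ord 1 = 0 := by
  have h := hm 1 1 one_ne_zero one_ne_zero
  rw [mul_one] at h
  omega

theorem ord_inv (ord : K → ℤ) (hm : ∀ x y, x ≠ 0 → y ≠ 0 → ord (x * y) = ord x + ord y) (x : K) (hx : x ≠ 0) :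
    ord x⁻¹ = -ord x := by
  have h := hm x x⁻¹ hx (inv_ne_zero hx)
  rw [mul_inv_cancel₀ hx, ord_one ord hm] at h
  omega

theorem ord_nat (ord : K → ℤ) (hm : ∀ x y, x ≠ 0 → y ≠ 0 → ord (x * y) = ord x + ord y)
    (ha : ∀ x y (m : ℤ), x ≠ 0 → y ≠ 0 → x + y ≠ 0 → m ≤ ord x → m ≤ ord y → m ≤ ord (x + y)) (n : ℕ)
    (hn : (n : K) ≠ 0) : 0 ≤ ord (n : K) := by
  induction n with
  | zero => exact absurd Nat.cast_zero hn
  | succ n ih =>
    by_cases h : (n : K) = 0
    · rw [Nat.cast_succ, h, zero_add, ord_one ord hm]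
    · rw [Nat.cast_succ] at hn ⊢
      exact ha _ _ 0 h one_ne_zero hn (ih h) (ord_one ord hm).ge

/-- The absolute value of a valuation. -/
noncomputable def absv (ord : K → ℤ) (hm : ∀ x y, x ≠ 0 → y ≠ 0 → ord (x * y) = ord x + ord y)
    (ha : ∀ x y (m : ℤ), x ≠ 0 → y ≠ 0 → x + y ≠ 0 → m ≤ ord x → m ≤ ord y → m ≤ ord (x + y)) :
    AbsoluteValue K ℝ := by
  classical
  exact
  { toFun := fun x => if x = 0 then 0 else Real.exp (-(ord x : ℝ))
    map_mul' := by
      intro x y
      by_cases hx : x = 0
      · simp [hx]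
      by_cases hy : y = 0
      · simp [hy]
      simp only [mul_eq_zero, hx, hy, or_self, if_false]
      rw [hm x y hx hy, ← Real.exp_add]
      congr 1
      push_cast
      ring
    nonneg' := by
      intro x
      show 0 ≤ (if x = 0 then (0:ℝ) else Real.exp (-(ord x : ℝ)))
      split_ifs
      · exact le_refl 0
      · exact (Real.exp_pos _).le
    eq_zero' := by
      intro x
      show (if x = 0 then (0:ℝ) else Real.exp (-(ord x : ℝ))) = 0 ↔ x = 0
      split_ifs with h
      · simp [h]
      · simp [h, (Real.exp_pos _).ne']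
    add_le' := by
      intro x y
      show (if x + y = 0 then (0:ℝ) else Real.exp (-(ord (x + y) : ℝ))) ≤
        (if x = 0 then (0:ℝ) else Real.exp (-(ord x : ℝ))) +
        (if y = 0 then (0:ℝ) else Real.exp (-(ord y : ℝ)))
      by_cases hx : x = 0
      · simp [hx]
      by_cases hy : y = 0
      · simp [hy]
      by_cases hxy : x + y = 0
      · simp only [hxy, if_true, hx, hy, if_false]
        positivity
      simp only [hx, hy, hxy, if_false]
      have h := ha x y (min (ord x) (ord y)) hx hy hxy (min_le_left _ _) (min_le_right _ _)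
      rcases min_choice (ord x) (ord y) with h' | h'
      · rw [h'] at h
        have : Real.exp (-(ord (x + y) : ℝ)) ≤ Real.exp (-(ord x : ℝ)) := by
          apply Real.exp_le_exp.mpr
          have : (ord x : ℝ) ≤ ord (x + y) := by exact_mod_cast h
          linarith
        have h2 := Real.exp_pos (-(ord y : ℝ))
        linarith
      · rw [h'] at h
        have : Real.exp (-(ord (x + y) : ℝ)) ≤ Real.exp (-(ord y : ℝ)) := by
          apply Real.exp_le_exp.mpr
          have : (ord y : ℝ) ≤ ord (x + y) := by exact_mod_cast h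
          linarith
        have h2 := Real.exp_pos (-(ord x : ℝ))
        linarith }

theorem absv_apply (ord : K → ℤ) (hm : ∀ x y, x ≠ 0 → y ≠ 0 → ord (x * y) = ord x + ord y)
    (ha : ∀ x y (m : ℤ), x ≠ 0 → y ≠ 0 → x + y ≠ 0 → m ≤ ord x → m ≤ ord y → m ≤ ord (x + y)) (x : K) (hx : x ≠ 0) :
    absv ord hm ha x = Real.exp (-(ord x : ℝ)) := by
  classical
  show (if x = 0 then 0 else Real.exp (-(ord x : ℝ))) = _
  rw [if_neg hx]

theorem ext_triv (ord : K → ℤ) (ht : ∀ x, x ≠ 0 → ord x = 0) :
    ∃ (L : Type u) (_ : NormedField L) (_ : IsUltrametricDist L) (_ : IsAlgClosed L) (j : K →+* L),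
      ∀ x, x ≠ 0 → ‖j x‖ = Real.exp (-(ord x : ℝ)) := by
  classical
  let Ω := AlgebraicClosure K
  let a : AbsoluteValue Ω ℝ := AbsoluteValue.trivial
  letI hΩ : NormedField Ω := a.toNormedField
  have hn : ∀ x : Ω, ‖x‖ = if x = 0 then 0 else 1 := by
    intro x
    show a x = _
    by_cases hx : x = 0
    · rw [hx, if_pos rfl, map_zero]
    · rw [if_neg hx]
      exact AbsoluteValue.trivial_apply hx
  refine ⟨Ω, hΩ, ?_, inferInstance, algebraMap K Ω, fun x hx => ?_⟩
  · apply IsUltrametricDist.isUltrametricDist_of_isNonarchimedean_norm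
    intro x y
    rw [hn, hn, hn]
    by_cases hx : x = 0
    · rw [hx, zero_add, if_pos rfl]
      exact le_max_right _ _
    · rw [if_neg hx]
      refine le_trans ?_ (le_max_left _ _)
      split_ifs <;> norm_num
  · rw [hn, if_neg ((map_ne_zero _).2 hx), ht x hx]
    simp

theorem ext : Pool.Agent.P8H67.IU.S_EXT := by
  intro K _ ord hm ha
  by_cases htriv : ∀ x, x ≠ 0 → ord x = 0
  · exact ext_triv ord htriv
  push Not at htriv
  obtain ⟨π, hπ0, hπ⟩ := htriv
  let a := absv ord hm ha
  have hnat : ∀ n : ℕ, a (n : K) ≤ 1 := by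
    intro n
    by_cases hn : (n : K) = 0
    · rw [hn, map_zero]
      exact zero_le_one
    · show absv ord hm ha (n : K) ≤ 1
      rw [absv_apply ord hm ha _ hn, Real.exp_le_one_iff]
      have : (0 : ℝ) ≤ ord (n : K) := by exact_mod_cast ord_nat ord hm ha n hn
      linarith
  haveI hu : IsUltrametricDist a.Completion := by
    rw [isUltrametricDist_iff_forall_norm_natCast_le_one]
    intro n
    have h1 : ((n : ℕ) : a.Completion) = ((n : WithAbs a) : a.Completion) := by
      have := map_natCast (UniformSpace.Completion.coeRingHom (α := WithAbs a)) n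
      exact this.symm
    rw [h1, UniformSpace.Completion.norm_coe]
    exact hnat n
  have hnt : ∃ x : a.Completion, 1 < ‖x‖ := by
    have hcoe : ∀ x : K, ‖((WithAbs.toAbs a x : WithAbs a) : a.Completion)‖ = a x := by
      intro x
      rw [UniformSpace.Completion.norm_coe]
      rfl
    rcases lt_or_gt_of_ne hπ with h | h
    · refine ⟨((WithAbs.toAbs a π : WithAbs a) : a.Completion), ?_⟩
      rw [hcoe]
      show 1 < absv ord hm ha π
      rw [absv_apply ord hm ha π hπ0]
      apply Real.one_lt_exp_iff.mpr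
      have : (ord π : ℝ) < 0 := by exact_mod_cast h
      linarith
    · refine ⟨((WithAbs.toAbs a π⁻¹ : WithAbs a) : a.Completion), ?_⟩
      rw [hcoe]
      show 1 < absv ord hm ha π⁻¹
      rw [map_inv₀, absv_apply ord hm ha π hπ0]
      rw [one_lt_inv₀ (Real.exp_pos _)]
      apply Real.exp_lt_one_iff.mpr
      have : (0 : ℝ) < ord π := by exact_mod_cast h
      linarith
  letI : NontriviallyNormedField a.Completion :=
    { (inferInstance : NormedField a.Completion) with non_trivial := hnt }
  let Ω := AlgebraicClosure a.Completion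
  letI hΩ : NormedField Ω := spectralNorm.normedField a.Completion Ω
  refine ⟨Ω, hΩ, ?_, inferInstance, ?_, ?_⟩
  · apply IsUltrametricDist.isUltrametricDist_of_isNonarchimedean_norm
    exact isNonarchimedean_spectralNorm (K := a.Completion) (L := Ω)
  · exact ((algebraMap a.Completion Ω).comp
      (UniformSpace.Completion.coeRingHom (α := WithAbs a))).comp
        (WithAbs.equiv a).symm.toRingHom
  · intro x hx
    have h1 := spectralNorm_extends (K := a.Completion) (L := Ω)
      ((WithAbs.toAbs a x : WithAbs a) : a.Completion)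
    have h2 : ‖((WithAbs.toAbs a x : WithAbs a) : a.Completion)‖ = a x := by
      rw [UniformSpace.Completion.norm_coe]
      rfl
    rw [h2] at h1
    rw [← absv_apply ord hm ha x hx]
    exact h1

end Pool.Agent.P8H84.IU
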