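import Pool.Agent.P8H67.IU.Stm

/-!
# Project IU (helper67), package VL: the local inequality at the places of a function field
-/

set_option autoImplicit false

namespace Pool.Agent.P8H84.IU

open Polynomial Finset
open Pool.Agent.P8H67.IU

universe u

/-! ### transfer of the local inequality along an injective map -/

section transfer

variable {α β : Type u}

theorem sum_image2 [DecidableEq β] (φ : α → β) (hφ : Function.Injective φ) (Y : Finset α) (G : β → β → ℝ) :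
    ∑ x ∈ Y.image φ, ∑ y ∈ Y.image φ, G x y = ∑ x ∈ Y, ∑ y ∈ Y, G (φ x) (φ y) := by
  rw [sum_image (fun x _ y _ h => hφ h)]
  exact sum_congr rfl fun x _ => by rw [sum_image (fun x _ y _ h => hφ h)]

theorem transfer [DecidableEq β] (φ : α → β) (hφ : Function.Injective φ) (δ : α → α → ℝ) (δ' : β → β → ℝ)
    (hδ : ∀ x y, δ' (φ x) (φ y) = δ x y) (F : α → α) (F' : β → β) (hF : ∀ x, F' (φ x) = φ (F x)) (Y : Finset α) (l : α)
    (d : ℕ) (r A T c : ℝ) (h : LocIneq δ' F' (Y.image φ) (φ l) d r A T c) : LocIneq δ F Y l d r A T c := by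
  unfold LocIneq En Er er Mx at h ⊢
  rw [card_image_of_injective _ hφ] at h
  simp only [sum_image2 φ hφ] at h
  simp only [id, hδ, hF] at h ⊢
  exact h

end transfer

/-! ### one place -/

section place

variable {K : Type u} [Field K]

/-- the numbers which determine the radius -/
noncomputable def qq (ord : K → ℤ) (d : ℕ) (a : K) (P : K[X]) (i : ℕ) : ℝ :=
  (((i : ℝ) - 1) * ord a / ((d : ℝ) - 1) - ord (P.coeff i)) / ((d : ℝ) - i)

theorem norm_root {L : Type u} [NormedField L] {β b : L} {d : ℕ} {o : ℝ} (hd : 2 ≤ d) (hβ : β ^ (d - 1) = b)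
    (hb : ‖b‖ = Real.exp (-o)) : ‖β‖ = Real.exp (-(o / ((d : ℝ) - 1))) := by
  have hd1 : (0 : ℝ) < (d : ℝ) - 1 := by
    have : (2 : ℝ) ≤ d := by exact_mod_cast hd
    linarith
  have h1 : ‖β‖ ^ (d - 1) = Real.exp (-(o / ((d : ℝ) - 1))) ^ (d - 1) := by
    rw [← norm_pow, hβ, hb, ← Real.exp_nat_mul]
    congr 1
    rw [Nat.cast_sub (by omega), Nat.cast_one]
    field_simp
  exact (pow_left_inj₀ (norm_nonneg _) (Real.exp_pos _).le (by omega)).1 h1

theorem insep_dvd {L : Type u} [Field L] (p : ℕ) [Fact p.Prime] [CharP L p] (h : L[X]) (b : L) :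
    (X - C b) ^ p ∣ expand L p h - C ((expand L p h).eval b) := by
  have h1 : X - C (b ^ p) ∣ h - C (h.eval (b ^ p)) := by
    rw [dvd_iff_isRoot]
    simp
  have h2 := map_dvd (expand L p) h1
  rw [map_sub, map_sub, expand_X, expand_C, expand_C] at h2
  rw [expand_eval]
  have h3 : (X - C b) ^ p = X ^ p - C (b ^ p) := by
    rw [sub_pow_char, ← C_pow]
  rw [h3]
  exact h2

theorem at_place (hGEO : S_GEO.{u}) (hEXT : S_EXT.{u}) (p d : ℕ) [Fact p.Prime] [CharP K p] (hd : 2 ≤ d)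
    (ord : K → ℤ) (hm : ∀ x y, x ≠ 0 → y ≠ 0 → ord (x * y) = ord x + ord y)
    (ha : ∀ x y (m : ℤ), x ≠ 0 → y ≠ 0 → x + y ≠ 0 → m ≤ ord x → m ≤ ord y → m ≤ ord (x + y))
    (f g : K[X]) (hf : f = expand K p g) (hfd : f.natDegree = d) (Z : Finset K) (hZ : ∀ z ∈ Z, f.eval z ∈ Z)
    (z₀ : K) (hz₀ : z₀ ∈ Z) (r : ℝ) (hr0 : 0 ≤ r)
    (hrI : ∀ i, 1 ≤ i → i < d → (f.comp (X + C z₀)).coeff i ≠ 0 →
      qq ord d f.leadingCoeff (f.comp (X + C z₀)) i ≤ r)
    (hre : r = 0 ∨ ∃ i, 1 ≤ i ∧ i < d ∧ (f.comp (X + C z₀)).coeff i ≠ 0 ∧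
      qq ord d f.leadingCoeff (f.comp (X + C z₀)) i = r) :
    ∃ (L : Type u) (_ : NormedField L) (_ : IsUltrametricDist L) (_ : IsAlgClosed L) (φ : K → L) (ft : L[X]) (x₀ : L),
      Function.Injective φ ∧ ft.Monic ∧ ft.natDegree = d ∧ (∀ b : L, (X - C b) ^ p ∣ ft - C (ft.eval b)) ∧
      Disc ft x₀ (Real.exp r) ∧ (∀ z ∈ Z, ‖φ z - x₀‖ ≤ Real.exp r) ∧ (∀ x, ft.eval (φ x) = φ (f.eval x)) ∧
      ∀ x y, x ≠ y → ld (φ x) (φ y) = -(ord (x - y) : ℝ) - (ord f.leadingCoeff : ℝ) / ((d : ℝ) - 1) := by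
  classical
  obtain ⟨L, iN, iU, iA, j, hj⟩ := hEXT K ord hm ha
  have hd2 : (2 : ℝ) ≤ d := by exact_mod_cast hd
  have hd1 : (0 : ℝ) < (d : ℝ) - 1 := by linarith
  have hf0 : f ≠ 0 := by
    rintro rfl
    rw [natDegree_zero] at hfd
    omega
  obtain ⟨a, haa⟩ : ∃ a, a = f.leadingCoeff := ⟨_, rfl⟩
  have ha0 : a ≠ 0 := by
    rw [haa]
    exact leadingCoeff_ne_zero.2 hf0
  have hja : j a ≠ 0 := (map_ne_zero j).2 ha0
  obtain ⟨β, hβ⟩ := IsAlgClosed.exists_pow_nat_eq (j a) (n := d - 1) (by omega)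
  have hβ0 : β ≠ 0 := by
    rintro rfl
    rw [zero_pow (by omega)] at hβ
    exact hja hβ.symm
  have hβn : ‖β‖ = Real.exp (-((ord a : ℝ) / ((d : ℝ) - 1))) := norm_root hd hβ (hj a ha0)
  haveI : CharP L p := charP_of_injective_ringHom j.injective p
  obtain ⟨ft, hft⟩ : ∃ ft : L[X], ft = C β * (f.map j).comp (C β⁻¹ * X) := ⟨_, rfl⟩
  have hcoeff : ∀ n, ft.coeff n = β * (j (f.coeff n) * β⁻¹ ^ n) := by
    intro n
    rw [hft, coeff_C_mul, comp_C_mul_X_coeff, coeff_map]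
  have hdeg : ft.natDegree = d := by
    rw [hft, natDegree_C_mul hβ0, natDegree_comp, natDegree_map, hfd, natDegree_C_mul_X _ (inv_ne_zero hβ0), mul_one]
  have hmonic : ft.Monic := by
    unfold Monic
    rw [leadingCoeff, hdeg, hcoeff]
    have e1 : f.coeff d = a := by
      rw [haa, leadingCoeff, hfd]
    rw [e1, ← hβ, inv_pow]
    have e2 : β * (β ^ (d - 1) * (β ^ d)⁻¹) = β ^ (d - 1 + 1) * (β ^ d)⁻¹ := by
      rw [pow_succ]
      ring
    rw [e2, Nat.sub_add_cancel (by omega), mul_inv_cancel₀ (pow_ne_zero _ hβ0)]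
  have hins : ∀ b : L, (X - C b) ^ p ∣ ft - C (ft.eval b) := by
    intro b
    have e1 : ft = expand L p (C β * (g.map j).comp (C (β⁻¹ ^ p) * X)) := by
      rw [hft, hf, map_expand, map_mul, expand_C, expand_eq_comp_X_pow, expand_eq_comp_X_pow, comp_assoc, comp_assoc]
      congr 2
      simp [mul_pow]
      rw [← C_pow, inv_pow]
    rw [e1]
    exact insep_dvd p _ b
  obtain ⟨φ, hφ⟩ : ∃ φ : K → L, φ = fun x => β * j x := ⟨_, rfl⟩
  have hφi : Function.Injective φ := by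
    intro x y hxy
    rw [hφ] at hxy
    exact j.injective (mul_left_cancel₀ hβ0 hxy)
  have hφe : ∀ x, ft.eval (φ x) = φ (f.eval x) := by
    intro x
    rw [hft, hφ]
    simp only [eval_mul, eval_C, eval_comp, eval_X]
    rw [inv_mul_cancel_left₀ hβ0, eval_map, eval₂_at_apply]
  have hφn : ∀ x y, x ≠ y → ‖φ x - φ y‖ = Real.exp (-(ord (x - y) : ℝ) - (ord a : ℝ) / ((d : ℝ) - 1)) := by
    intro x y hxy
    rw [hφ]
    simp only
    rw [← mul_sub, ← map_sub, norm_mul, hβn, hj _ (sub_ne_zero.2 hxy), ← Real.exp_add]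
    congr 1
    ring
  obtain ⟨x₀, hx₀⟩ : ∃ x₀, x₀ = φ z₀ := ⟨_, rfl⟩
  obtain ⟨P, hP⟩ : ∃ P, P = f.comp (X + C z₀) := ⟨_, rfl⟩
  rw [← haa, ← hP] at hrI hre
  have hPc : ∀ i, (ft.comp (X + C x₀)).coeff i = β * (j (P.coeff i) * β⁻¹ ^ i) := by
    intro i
    have e1 : ft.comp (X + C x₀) = C β * (P.map j).comp (C β⁻¹ * X) := by
      rw [hft, hP, mul_comp, C_comp, comp_assoc, Polynomial.map_comp, comp_assoc]
      congr 2
      rw [hx₀, hφ]
      simp only [mul_comp, C_comp, X_comp, Polynomial.map_add, map_X, map_C, add_comp]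
      rw [mul_add, ← C_mul, inv_mul_cancel_left₀ hβ0]
    rw [e1, coeff_C_mul, comp_C_mul_X_coeff, coeff_map]
  have hnc : ∀ i, 1 ≤ i → i < d → P.coeff i ≠ 0 → ‖(ft.comp (X + C x₀)).coeff i‖ =
      Real.exp (qq ord d a P i) ^ (d - i) := by
    intro i hi1 hi2 hi3
    have hdi : (0 : ℝ) < (d : ℝ) - i := by
      have : (i : ℝ) < d := by exact_mod_cast hi2
      linarith
    rw [hPc, norm_mul, norm_mul, norm_pow, norm_inv, hβn, hj _ hi3, ← Real.exp_neg, ← Real.exp_nat_mul,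
      ← Real.exp_nat_mul, ← Real.exp_add, ← Real.exp_add]
    congr 1
    unfold qq
    rw [Nat.cast_sub hi2.le, mul_div_cancel₀ _ hdi.ne']
    field_simp
    ring
  have hR1 : 1 ≤ Real.exp r := Real.one_le_exp hr0
  have horb : ∀ (n : ℕ) (x : K), (fun z => ft.eval z)^[n] (φ x) = φ ((fun z => f.eval z)^[n] x) := by
    intro n x
    have h1 : Function.Semiconj φ (fun z => f.eval z) (fun z => ft.eval z) := fun x => (hφe x).symm
    exact ((h1.iterate_right n) x).symm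
  have hZn : ∀ (n : ℕ), ∀ x ∈ Z, (fun z => f.eval z)^[n] x ∈ Z := by
    intro n
    induction n with
    | zero => intro x hx; exact hx
    | succ n ih =>
      intro x hx
      rw [Function.iterate_succ_apply']
      exact hZ _ (ih x hx)
  have hbdd : ∃ B : ℝ, ∀ n : ℕ, ‖(fun z => ft.eval z)^[n] x₀ - x₀‖ ≤ B := by
    refine ⟨∑ z ∈ Z, ‖φ z - x₀‖, fun n => ?_⟩
    rw [hx₀, horb]
    exact single_le_sum (f := fun z => ‖φ z - φ z₀‖) (fun _ _ => norm_nonneg _) (hZn n z₀ hz₀)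
  have hdisc : Disc ft x₀ (Real.exp r) := by
    refine hGEO L ft d hmonic hdeg hd x₀ hbdd (Real.exp r) hR1 (fun i hi1 hi2 => ?_) ?_
    · by_cases hi3 : P.coeff i = 0
      · rw [hPc, hi3, map_zero, zero_mul, mul_zero, norm_zero]
        positivity
      · rw [hnc i hi1 hi2 hi3]
        exact pow_le_pow_left₀ (Real.exp_pos _).le (Real.exp_le_exp.2 (hrI i hi1 hi2 hi3)) _
    · rcases hre with h | ⟨i, hi1, hi2, hi3, hi4⟩
      · left
        rw [h, Real.exp_zero]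
      · right
        exact ⟨i, hi1, hi2, by rw [hnc i hi1 hi2 hi3, hi4]⟩
  refine ⟨L, iN, iU, iA, φ, ft, x₀, hφi, hmonic, hdeg, hins, hdisc, ?_, hφe, ?_⟩
  · by_contra hcon
    push Not at hcon
    obtain ⟨z₁, hz₁, hz₁'⟩ := hcon
    obtain ⟨z, hz, hzmax⟩ := exists_max_image Z (fun z => ‖φ z - x₀‖) ⟨z₁, hz₁⟩
    have h1 : Real.exp r < ‖φ z - x₀‖ := lt_of_lt_of_le hz₁' (hzmax z₁ hz₁)
    have h2 := hdisc.esc (φ z) h1
    rw [hφe, hdeg] at h2
    have h3 := hzmax _ (hZ z hz)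
    rw [h2] at h3
    have h4 : 1 < ‖φ z - x₀‖ := lt_of_le_of_lt hR1 h1
    have h5 : ‖φ z - x₀‖ < ‖φ z - x₀‖ ^ d := lt_self_pow₀ h4 (by omega)
    linarith
  · intro x y hxy
    unfold ld
    rw [hφn x y hxy, Real.log_exp, haa]

end place

theorem vl (hLOC : S_LOC.{u}) (hGEO : S_GEO.{u}) (hEXT : S_EXT.{u}) (hLBR : S_LBR.{u}) : S_VL.{u} := by
  classical
  intro p d _ A hd hA
  have hp2 : 2 ≤ p := (Fact.out : p.Prime).two_le
  obtain ⟨n, N₀, T, c, hn, hT, hc, hloc⟩ := hLOC p d A hp2 hd hA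
  refine ⟨n, N₀, T, c, hn, hT, hc, ?_⟩
  intro k K _ _ _ _ Q f g hf hfd Z hZne hZ
  obtain ⟨z₀, hz₀⟩ := hZne
  obtain ⟨P, hP⟩ : ∃ P, P = f.comp (X + C z₀) := ⟨_, rfl⟩
  obtain ⟨a, haa⟩ : ∃ a, a = f.leadingCoeff := ⟨_, rfl⟩
  have hf0 : f ≠ 0 := by
    rintro rfl
    rw [natDegree_zero] at hfd
    omega
  have ha0 : a ≠ 0 := by
    rw [haa]
    exact leadingCoeff_ne_zero.2 hf0
  have hd2 : (2 : ℝ) ≤ d := by exact_mod_cast hd
  obtain ⟨I, hI⟩ : ∃ I : Finset ℕ, I = (Ico 1 d).filter (fun i => P.coeff i ≠ 0) := ⟨_, rfl⟩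
  have hS : ∀ v : Q.Pl, (insert 0 (I.image (qq (Q.ord v) d a P)) : Finset ℝ).Nonempty := fun v => insert_nonempty _ _
  obtain ⟨r, hr⟩ : ∃ r : Q.Pl → ℝ, r = fun v => (insert 0 (I.image (qq (Q.ord v) d a P))).max' (hS v) := ⟨_, rfl⟩
  have hr0 : ∀ v, 0 ≤ r v := by
    intro v
    rw [hr]
    exact le_max' _ _ (mem_insert_self _ _)
  have hrI : ∀ v, ∀ i, 1 ≤ i → i < d → P.coeff i ≠ 0 → qq (Q.ord v) d a P i ≤ r v := by
    intro v i hi1 hi2 hi3
    rw [hr]
    refine le_max' _ _ (mem_insert_of_mem (mem_image_of_mem _ ?_))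
    rw [hI, mem_filter, mem_Ico]
    exact ⟨⟨hi1, hi2⟩, hi3⟩
  have hre : ∀ v, r v = 0 ∨ ∃ i, 1 ≤ i ∧ i < d ∧ P.coeff i ≠ 0 ∧ qq (Q.ord v) d a P i = r v := by
    intro v
    have h1 := max'_mem _ (hS v)
    have h2 : r v = (insert 0 (I.image (qq (Q.ord v) d a P))).max' (hS v) := by rw [hr]
    rw [← h2, mem_insert] at h1
    rcases h1 with h1 | h1
    · exact Or.inl h1
    · obtain ⟨i, hi, hi'⟩ := mem_image.1 h1
      rw [hI, mem_filter, mem_Ico] at hi
      exact Or.inr ⟨i, hi.1.1, hi.1.2, hi.2, hi'⟩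
  have hpl := fun v => at_place hGEO hEXT p d hd (Q.ord v) (Q.ord_mul v) (Q.ord_add v) f g hf hfd Z hZ z₀ hz₀ (r v)
    (hr0 v) (by rw [← haa, ← hP]; exact hrI v) (by rw [← haa, ← hP]; exact hre v)
  have hdl : ∀ v x y, x ≠ y → dl Q f.leadingCoeff d v x y =
      -(Q.ord v (x - y) : ℝ) - (Q.ord v f.leadingCoeff : ℝ) / ((d : ℝ) - 1) := by
    intro v x y hxy
    unfold dl
    rw [if_neg hxy]
  have hdl0 : ∀ v x, dl Q f.leadingCoeff d v x x = 0 := by
    intro v x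
    unfold dl
    rw [if_pos rfl]
  refine ⟨r, hr0, ?_, ?_, ?_, ?_⟩
  · -- finite support
    have hfin : ({v | Q.ord v a ≠ 0} ∪ ⋃ i ∈ I, {v | Q.ord v (P.coeff i) ≠ 0}).Finite := by
      refine (Q.fin a ha0).union (I.finite_toSet.biUnion fun i hi => Q.fin _ ?_)
      rw [mem_coe, hI, mem_filter] at hi
      exact hi.2
    refine hfin.subset fun v hv => ?_
    by_contra hnot
    rw [Set.mem_union, not_or] at hnot
    obtain ⟨h1, h2⟩ := hnot
    have h1' : Q.ord v a = 0 := by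
      by_contra h
      exact h1 h
    apply hv
    rcases hre v with h | ⟨i, hi1, hi2, hi3, hi4⟩
    · exact h
    · have h3 : Q.ord v (P.coeff i) = 0 := by
        by_contra h
        apply h2
        rw [Set.mem_iUnion₂]
        exact ⟨i, by rw [hI, mem_filter, mem_Ico]; exact ⟨⟨hi1, hi2⟩, hi3⟩, h⟩
      rw [← hi4]
      unfold qq
      rw [h1', h3]
      simp
  · intro v x hx y hy
    by_cases hxy : x = y
    · rw [hxy, hdl0]
      exact hr0 v
    obtain ⟨L, iN, iU, iA, φ, ft, x₀, hφi, hmonic, hdeg, hins, hdisc, hin, hφe, hld⟩ := hpl v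
    rw [hdl v x y hxy, ← hld x y hxy]
    unfold ld
    have h1 : 0 < ‖φ x - φ y‖ := norm_pos_iff.2 (sub_ne_zero.2 fun h => hxy (hφi h))
    rw [Real.log_le_iff_le_exp h1]
    have h2 : φ x - φ y = (φ x - x₀) + (x₀ - φ y) := by ring
    rw [h2]
    refine (IsUltrametricDist.norm_add_le_max _ _).trans (max_le (hin x hx) ?_)
    rw [norm_sub_rev]
    exact hin y hy
  · intro v x hx y hy hxy hfxy
    obtain ⟨L, iN, iU, iA, φ, ft, x₀, hφi, hmonic, hdeg, hins, hdisc, hin, hφe, hld⟩ := hpl v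
    rw [hdl v _ _ hxy, hdl v _ _ hfxy, ← hld x y hxy, ← hld _ _ hfxy]
    obtain ⟨hpd, hle⟩ := hLBR L ft p d hmonic hdeg hd hins x₀ (Real.exp (r v)) hdisc (φ x) (φ y) (hin x hx)
      (by rw [hφe]; exact hin _ (hZ y hy))
    rw [hφe, hφe] at hle
    unfold ld
    have h1 : 0 < ‖φ x - φ y‖ := norm_pos_iff.2 (sub_ne_zero.2 fun h => hxy (hφi h))
    have h2 : 0 < ‖φ (f.eval x) - φ (f.eval y)‖ := norm_pos_iff.2 (sub_ne_zero.2 fun h => hfxy (hφi h))
    have h3 := Real.log_le_log h2 hle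
    rw [Real.log_mul (pow_pos h1 _).ne' (pow_pos (Real.exp_pos _) _).ne', Real.log_pow, Real.log_pow, Real.log_exp,
      Nat.cast_sub hpd] at h3
    exact h3
  · intro v Y hYZ hYc hinj l₀ hl₀ hl₀Y
    obtain ⟨L, iN, iU, iA, φ, ft, x₀, hφi, hmonic, hdeg, hins, hdisc, hin, hφe, hld⟩ := hpl v
    have horb : ∀ (n : ℕ) (x : K), (fun z => ft.eval z)^[n] (φ x) = φ ((fun z => f.eval z)^[n] x) := by
      intro n x
      have h1 : Function.Semiconj φ (fun z => f.eval z) (fun z => ft.eval z) := fun x => (hφe x).symm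
      exact ((h1.iterate_right n) x).symm
    have hZn : ∀ (n : ℕ), ∀ x ∈ Z, (fun z => f.eval z)^[n] x ∈ Z := by
      intro n
      induction n with
      | zero => intro x hx; exact hx
      | succ n ih =>
        intro x hx
        rw [Function.iterate_succ_apply']
        exact hZ _ (ih x hx)
    have hres := hloc L ft hmonic hdeg hins x₀ (Real.exp (r v)) hdisc (Y.image φ)
      (by rw [card_image_of_injective _ hφi]; exact hYc)
      (by
        intro y hy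
        obtain ⟨x, hx, rfl⟩ := mem_image.1 hy
        intro m
        rw [horb]
        exact hin _ (hZn m x (hYZ hx)))
      (by
        intro x' hx' y' hy' hxy
        rw [mem_coe] at hx' hy'
        obtain ⟨x, hx, rfl⟩ := mem_image.1 hx'
        obtain ⟨y, hy, rfl⟩ := mem_image.1 hy'
        rw [horb, horb] at hxy
        rw [hinj hx hy (hφi hxy)])
      (by
        refine ⟨-((Q.ord v f.leadingCoeff : ℝ) / ((d : ℝ) - 1)), ?_⟩
        intro x' hx' y' hy' hxy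
        obtain ⟨x, hx, rfl⟩ := mem_image.1 hx'
        obtain ⟨y, hy, rfl⟩ := mem_image.1 hy'
        refine ⟨-(Q.ord v (x - y)), ?_⟩
        rw [hld x y (fun h => hxy (by rw [h]))]
        push_cast
        ring)
      (φ l₀) (hin l₀ hl₀) (by
        intro h
        obtain ⟨x, hx, hxl⟩ := mem_image.1 h
        rw [hφi hxl] at hx
        exact hl₀Y hx)
    rw [Real.log_exp] at hres
    refine transfer φ hφi (dl Q f.leadingCoeff d v) ld ?_ _ _ (horb n) Y l₀ d (r v) A T c hres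
    intro x y
    by_cases hxy : x = y
    · rw [hxy, hdl0]
      unfold ld
      rw [sub_self, norm_zero, Real.log_zero]
    · rw [hdl v x y hxy, hld x y hxy]

end Pool.Agent.P8H84.IU
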